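import Mathlib

/-!
The space: finite sequences in `ℕ × Om` together with the infinite sequences whose range is
almost contained in the graph of some `e g`.
-/

namespace Pool.Agent.Work.MP_0d8d6b_gt

open Set

variable {Om : Type} [LinearOrder Om]

/-- graph of `e g` below `g` -/
def Lset (e : Om → Om → ℕ) (g : Om) : Set (ℕ × Om) := {j | j.2 < g ∧ j.1 = e g j.2}

/-- the ideal of small sets -/
def Small (e : Om → Om → ℕ) (D : Set (ℕ × Om)) : Prop :=
  D.Countable ∧ ∀ g, (D ∩ Lset e g).Finite

/-- the good infinite sequences -/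
def Good (e : Om → Om → ℕ) : Set (ℕ → ℕ × Om) :=
  {x | ∃ g, (Set.range x \ Lset e g).Finite}

/-- points of the space -/
def Pt (e : Om → Om → ℕ) : Type := List (ℕ × Om) ⊕ Good e

variable {e : Om → Om → ℕ}

lemma Small.mono {D D' : Set (ℕ × Om)} (h : Small e D) (hs : D' ⊆ D) : Small e D' :=
  ⟨h.1.mono hs, fun g => (h.2 g).subset (inter_subset_inter_left _ hs)⟩

lemma Small.union {D D' : Set (ℕ × Om)} (h : Small e D) (h' : Small e D') :
    Small e (D ∪ D') :=
  ⟨h.1.union h'.1, fun g => by
    rw [union_inter_distrib_right]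
    exact (h.2 g).union (h'.2 g)⟩

lemma Small.of_finite {D : Set (ℕ × Om)} (h : D.Finite) : Small e D :=
  ⟨h.countable, fun _ => h.subset inter_subset_left⟩

/-- the finite point -/
def fin (e : Om → Om → ℕ) (t : List (ℕ × Om)) : Pt e := Sum.inl t

/-- the infinite point -/
def inf (e : Om → Om → ℕ) (x : Good e) : Pt e := Sum.inr x

/-- restriction of a point to its first `l` entries -/
def res (l : ℕ) : Pt e → List (ℕ × Om)
  | Sum.inl s => s.take l
  | Sum.inr x => (List.range l).map x.1

@[simp] lemma res_fin (l : ℕ) (s : List (ℕ × Om)) : res l (fin e s) = s.take l := rfl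

@[simp] lemma res_inf (l : ℕ) (x : Good e) : res l (inf e x) = (List.range l).map x.1 := rfl

lemma take_res {l m : ℕ} (h : l ≤ m) (p : Pt e) : (res m p).take l = res l p := by
  rcases p with s | x
  · change (s.take m).take l = s.take l
    rw [List.take_take, min_eq_left h]
  · change ((List.range m).map x.1).take l = (List.range l).map x.1
    rw [← List.map_take, List.take_range, min_eq_left h]

/-- the cone above `t` -/
def cone (e : Om → Om → ℕ) (t : List (ℕ × Om)) : Set (Pt e) := {p | res t.length p = t}

lemma mem_cone {t : List (ℕ × Om)} {p : Pt e} : p ∈ cone e t ↔ res t.length p = t := Iff.rfl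

lemma cone_nil : cone e [] = univ := by
  ext p
  refine iff_of_true ?_ trivial
  rw [mem_cone]
  rcases p with s | x
  · simp [res]
  · simp [res]

lemma fin_mem_cone (t : List (ℕ × Om)) : fin e t ∈ cone e t := by
  rw [mem_cone, res_fin, List.take_length]

lemma inf_mem_cone (x : Good e) (l : ℕ) : inf e x ∈ cone e (res l (inf e x)) := by
  rw [mem_cone]
  simp

lemma cone_anti {t t' : List (ℕ × Om)} (h : t <+: t') : cone e t' ⊆ cone e t := by
  intro p hp
  rw [mem_cone] at *
  rw [← take_res h.length_le, hp]
  exact (List.prefix_iff_eq_take.mp h).symm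

lemma cone_compare {t t' : List (ℕ × Om)} {p : Pt e} (h : p ∈ cone e t) (h' : p ∈ cone e t')
    (hl : t.length ≤ t'.length) : t <+: t' := by
  rw [mem_cone] at h h'
  have h1 := take_res hl p
  rw [h, h'] at h1
  rw [List.prefix_iff_eq_take]
  exact h1.symm

lemma cone_split {t : List (ℕ × Om)} {p : Pt e} (h : p ∈ cone e t) :
    p = fin e t ∨ ∃ j, p ∈ cone e (t ++ [j]) := by
  rw [mem_cone] at h
  rcases p with s | x
  · change s.take t.length = t at h
    have hp : t <+: s := List.prefix_iff_eq_take.mpr h.symm
    obtain ⟨u, rfl⟩ := hp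
    rcases u with _ | ⟨j, u⟩
    · left
      rw [List.append_nil]
      rfl
    · right
      refine ⟨j, ?_⟩
      change (t ++ j :: u).take (t ++ [j]).length = t ++ [j]
      have : t ++ j :: u = (t ++ [j]) ++ u := by simp
      rw [this, List.take_left]
  · right
    change (List.range t.length).map x.1 = t at h
    refine ⟨x.1 t.length, ?_⟩
    change (List.range (t ++ [x.1 t.length]).length).map x.1 = t ++ [x.1 t.length]
    rw [List.length_append, List.length_singleton, List.range_succ, List.map_append, h]
    rfl

lemma fin_notMem_cone (t : List (ℕ × Om)) (j : ℕ × Om) : fin e t ∉ cone e (t ++ [j]) := by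
  rw [mem_cone, res_fin]
  intro h
  have := congrArg List.length h
  simp at this

lemma fin_mem_cone_iff {s t : List (ℕ × Om)} : fin e s ∈ cone e t ↔ t <+: s := by
  rw [mem_cone, res_fin, List.prefix_iff_eq_take]
  exact eq_comm

lemma cone_disjoint {t : List (ℕ × Om)} {j j' : ℕ × Om} {p : Pt e}
    (h : p ∈ cone e (t ++ [j])) (h' : p ∈ cone e (t ++ [j'])) : j = j' := by
  have h1 := cone_compare h h' (by simp)
  have h2 := h1.eq_of_length (by simp)
  simpa using h2

lemma cone_nonempty (t : List (ℕ × Om)) : (cone e t).Nonempty := ⟨_, fin_mem_cone t⟩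

/-- The open sets of the space. -/
def IsOp (U : Set (Pt e)) : Prop :=
  (∀ x : Good e, inf e x ∈ U → ∃ l, cone e (res l (inf e x)) ⊆ U) ∧
    (∀ t : List (ℕ × Om), fin e t ∈ U → Small e {j | ¬ cone e (t ++ [j]) ⊆ U})

instance : TopologicalSpace (Pt e) where
  IsOpen := IsOp
  isOpen_univ := by
    refine ⟨fun x _ => ⟨0, subset_univ _⟩, fun t _ => ?_⟩
    simpa using Small.of_finite (e := e) (finite_empty)
  isOpen_inter := by
    rintro U V ⟨hU1, hU2⟩ ⟨hV1, hV2⟩
    constructor
    · rintro x ⟨hx, hx'⟩
      obtain ⟨l, hl⟩ := hU1 x hx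
      obtain ⟨m, hm⟩ := hV1 x hx'
      refine ⟨max l m, subset_inter ?_ ?_⟩
      · refine (cone_anti ?_).trans hl
        rw [List.prefix_iff_eq_take, ← take_res (le_max_left l m)]
        simp
      · refine (cone_anti ?_).trans hm
        rw [List.prefix_iff_eq_take, ← take_res (le_max_right l m)]
        simp
    · rintro t ⟨ht, ht'⟩
      refine ((hU2 t ht).union (hV2 t ht')).mono ?_
      intro j hj
      by_contra hcon
      rw [mem_union, not_or] at hcon
      simp only [mem_ofPred_eq, not_not] at hcon
      exact hj (subset_inter hcon.1 hcon.2)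
  isOpen_sUnion := by
    intro s hs
    constructor
    · rintro x ⟨U, hU, hx⟩
      obtain ⟨l, hl⟩ := (hs U hU).1 x hx
      exact ⟨l, hl.trans (subset_sUnion_of_mem hU)⟩
    · rintro t ⟨U, hU, ht⟩
      refine ((hs U hU).2 t ht).mono ?_
      intro j hj h
      exact hj (h.trans (subset_sUnion_of_mem hU))

lemma isOpen_iff' {U : Set (Pt e)} : IsOpen U ↔
    (∀ x : Good e, inf e x ∈ U → ∃ l, cone e (res l (inf e x)) ⊆ U) ∧
    (∀ t : List (ℕ × Om), fin e t ∈ U → Small e {j | ¬ cone e (t ++ [j]) ⊆ U}) := Iff.rfl

lemma pt_cases (p : Pt e) : (∃ t, p = fin e t) ∨ (∃ x, p = inf e x) := by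
  rcases p with s | x
  · exact Or.inl ⟨s, rfl⟩
  · exact Or.inr ⟨x, rfl⟩

/-- The union of the cones over a set `D` of immediate successors of `t`. -/
def fan (e : Om → Om → ℕ) (t : List (ℕ × Om)) (D : Set (ℕ × Om)) : Set (Pt e) :=
  {p | ∃ j ∈ D, p ∈ cone e (t ++ [j])}

lemma isOpen_cone (t : List (ℕ × Om)) : IsOpen (cone e t) := by
  rw [isOpen_iff']
  constructor
  · intro x hx
    refine ⟨t.length, ?_⟩
    rw [mem_cone] at hx
    rw [hx]
  · intro s hs
    rw [fin_mem_cone_iff] at hs
    refine Small.of_finite ?_
    convert finite_empty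
    ext j
    simp only [mem_ofPred_eq, mem_empty_iff_false, iff_false, not_not]
    exact cone_anti (hs.trans (List.prefix_append _ _))

lemma isOpen_fan (t : List (ℕ × Om)) (D : Set (ℕ × Om)) : IsOpen (fan e t D) := by
  have : fan e t D = ⋃ j ∈ D, cone e (t ++ [j]) := by
    ext p
    simp [fan]
  rw [this]
  exact isOpen_biUnion fun j _ => isOpen_cone _

lemma isClosed_fan {t : List (ℕ × Om)} {D : Set (ℕ × Om)} (hD : Small e D) :
    IsClosed (fan e t D) := by
  rw [← isOpen_compl_iff, isOpen_iff']
  constructor
  · intro x hx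
    refine ⟨t.length + 1, ?_⟩
    rintro p hp ⟨j, hj, hpj⟩
    apply hx
    refine ⟨j, hj, ?_⟩
    have hlen : (res (t.length + 1) (inf e x)).length = t.length + 1 := by simp
    have h1 := cone_compare hpj hp (by rw [hlen]; simp)
    have h2 := h1.eq_of_length (by rw [hlen]; simp)
    have h3 := inf_mem_cone x (t.length + 1)
    rw [← h2] at h3
    exact h3
  · intro s hs
    by_cases hts : s = t
    · subst hts
      refine hD.mono ?_
      intro j hj
      simp only [mem_ofPred_eq] at hj
      rw [subset_compl_iff_disjoint_right, not_disjoint_iff] at hj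
      obtain ⟨p, hp, j', hj', hpj'⟩ := hj
      rwa [cone_disjoint hp hpj']
    · refine Small.of_finite ?_
      by_cases hst : s <+: t
      · -- only the successor on the path to `t`
        obtain ⟨u, rfl⟩ := hst
        rcases u with _ | ⟨i, u⟩
        · simp at hts
        · refine (finite_singleton i).subset ?_
          intro j hj
          simp only [mem_ofPred_eq] at hj
          rw [subset_compl_iff_disjoint_right, not_disjoint_iff] at hj
          obtain ⟨p, hp, j', hj', hpj'⟩ := hj
          have h1 : p ∈ cone e (s ++ [i]) := by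
            refine cone_anti ?_ hpj'
            refine ⟨u ++ [j'], ?_⟩
            simp
          exact cone_disjoint hp h1
      · convert finite_empty
        ext j
        simp only [mem_ofPred_eq, mem_empty_iff_false, iff_false, not_not]
        rw [subset_compl_iff_disjoint_right, disjoint_left]
        rintro p hp ⟨j', hj', hpj'⟩
        -- `s ++ [j]` and `t ++ [j']` are comparable
        rcases le_total (s ++ [j]).length (t ++ [j']).length with hl | hl
        · have h1 := cone_compare hp hpj' hl
          apply hst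
          have h2 : s <+: t ++ [j'] := (List.prefix_append _ _).trans h1
          refine List.prefix_of_prefix_length_le h2 (List.prefix_append _ _) ?_
          simp at hl
          exact hl
        · have h1 := cone_compare hpj' hp hl
          -- `t ++ [j'] <+: s ++ [j]`
          by_cases hl2 : t.length = s.length
          · have h2 := h1.eq_of_length (by simp [hl2])
            have h3 := List.append_inj_left' h2 (by simp)
            exact hts h3.symm
          · have h2 : t ++ [j'] <+: s := by
              refine List.prefix_of_prefix_length_le h1 (List.prefix_append _ _) ?_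
              simp at hl
              simp
              omega
            apply hs
            exact ⟨j', hj', fin_mem_cone_iff.mpr h2⟩

lemma isClosed_cone (t : List (ℕ × Om)) : IsClosed (cone e t) := by
  rcases List.eq_nil_or_concat t with rfl | ⟨s, j, rfl⟩
  · rw [cone_nil]
    exact isClosed_univ
  · have : cone e (s ++ [j]) = fan e s {j} := by
      ext p
      simp [fan]
    rw [List.concat_eq_append] at *
    rw [this]
    exact isClosed_fan (Small.of_finite (finite_singleton j))

lemma isClopen_cone (t : List (ℕ × Om)) : IsClopen (cone e t) :=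
  ⟨isClosed_cone t, isOpen_cone t⟩

/-- zero-dimensionality -/
lemma isBasis_clopen : TopologicalSpace.IsTopologicalBasis {s : Set (Pt e) | IsClopen s} := by
  refine TopologicalSpace.isTopologicalBasis_of_isOpen_of_nhds (fun u hu => hu.isOpen) ?_
  intro p U hp hU
  rcases pt_cases p with ⟨t, rfl⟩ | ⟨x, rfl⟩
  · have hD := (isOpen_iff'.mp hU).2 t hp
    refine ⟨cone e t \ fan e t {j | ¬ cone e (t ++ [j]) ⊆ U}, ?_, ?_, ?_⟩
    · exact (isClopen_cone t).diff ⟨isClosed_fan hD, isOpen_fan _ _⟩
    · refine ⟨fin_mem_cone t, ?_⟩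
      rintro ⟨j, -, hj⟩
      exact fin_notMem_cone t j hj
    · rintro q ⟨hq, hq'⟩
      rcases cone_split hq with rfl | ⟨j, hj⟩
      · exact hp
      · by_contra hcon
        exact hq' ⟨j, fun h => hcon (h hj), hj⟩
  · obtain ⟨l, hl⟩ := (isOpen_iff'.mp hU).1 x hp
    exact ⟨_, isClopen_cone _, inf_mem_cone x l, hl⟩

lemma exists_sep {p q : Pt e} (h : p ≠ q) : ∃ U : Set (Pt e), IsClopen U ∧ p ∈ U ∧ q ∉ U := by
  by_contra hcon
  push Not at hcon
  have hcone : ∀ t, p ∈ cone e t → q ∈ cone e t := fun t ht => hcon _ (isClopen_cone t) ht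
  have hcone' : ∀ t, q ∈ cone e t → p ∈ cone e t := by
    intro t ht
    by_contra hp
    exact hcon _ (isClopen_cone t).compl hp ht
  apply h
  rcases pt_cases p with ⟨t, rfl⟩ | ⟨x, rfl⟩
  · have h1 := hcone t (fin_mem_cone t)
    rcases cone_split h1 with h2 | ⟨j, hj⟩
    · exact h2.symm
    · exact absurd (hcone' _ hj) (fin_notMem_cone t j)
  · rcases pt_cases q with ⟨t, rfl⟩ | ⟨y, rfl⟩
    · have h1 := hcone' t (fin_mem_cone t)
      rcases cone_split h1 with h2 | ⟨j, hj⟩
      · exact h2
      · exact absurd (hcone _ hj) (fin_notMem_cone t j)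
    · congr 1
      apply Subtype.ext
      funext n
      have h1 := hcone _ (inf_mem_cone x (n + 1))
      rw [mem_cone] at h1
      simp only [res_inf, List.length_map, List.length_range] at h1
      have h2 := congrArg (fun l => l[n]?) h1
      simp at h2
      exact h2.symm

instance : T2Space (Pt e) := by
  refine ⟨fun p q h => ?_⟩
  obtain ⟨U, hU, hp, hq⟩ := exists_sep h
  exact ⟨U, Uᶜ, hU.isOpen, hU.compl.isOpen, hp, hq, disjoint_compl_right⟩

end Pool.Agent.Work.MP_0d8d6b_gt
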