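import Pool.Agent.Work.MP_0d8d6b_gt.Defs
import Pool.Agent.Work.MP_0d8d6b_gt.Space

/-!
One's winning strategy in the game on `Pt e`.
-/

namespace Pool.Agent.Work.MP_0d8d6b_gt

open Set

variable {Om : Type} [LinearOrder Om] {e : Om → Om → ℕ}

/-- the points whose second coordinates extend `s` -/
def abv (e : Om → Om → ℕ) (s : List Om) : Set (Pt e) :=
  {p | (res s.length p).map Prod.snd = s}

lemma small_fiber (a : Om) : Small e {j : ℕ × Om | j.2 = a} := by
  constructor
  · refine (countable_range (fun n : ℕ => (n, a))).mono ?_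
    rintro ⟨n, b⟩ hb
    simp only [mem_ofPred_eq] at hb
    exact ⟨n, by rw [hb]⟩
  · intro g
    refine (finite_singleton (e g a, a)).subset ?_
    rintro ⟨n, b⟩ ⟨hb, -, hn⟩
    simp only [mem_ofPred_eq] at hb hn
    subst hb
    rw [mem_singleton_iff, hn]

lemma isOpen_abv_compl (s : List Om) : IsOpen (abv e s)ᶜ := by
  rw [isOpen_iff']
  constructor
  · intro x hx
    refine ⟨s.length, ?_⟩
    intro p hp hps
    apply hx
    rw [mem_cone] at hp
    have hlen : (res s.length (inf e x)).length = s.length := by simp
    rw [hlen] at hp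
    change (res s.length p).map Prod.snd = s at hps
    change (res s.length (inf e x)).map Prod.snd = s
    rw [← hp]
    exact hps
  · intro t ht
    by_cases hlt : t.length < s.length
    · refine (small_fiber (s[t.length])).mono ?_
      intro j hj
      simp only [mem_ofPred_eq] at hj
      rw [subset_compl_iff_disjoint_right, not_disjoint_iff] at hj
      obtain ⟨p, hp, hps⟩ := hj
      rw [mem_cone] at hp
      change (res s.length p).map Prod.snd = s at hps
      have h1 : (res s.length p).take (t ++ [j]).length = t ++ [j] := by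
        rw [take_res, hp]
        simp
        omega
      have h2 : (t ++ [j]).map Prod.snd = s.take (t ++ [j]).length := by
        rw [← h1, List.map_take, hps, h1]
      have h3 := congrArg (fun l => l[t.length]?) h2
      simp at h3
      change j.2 = s[t.length]
      rw [List.getElem?_eq_getElem hlt] at h3
      simpa using h3
    · refine Small.of_finite ?_
      convert finite_empty
      ext j
      simp only [mem_ofPred_eq, mem_empty_iff_false, iff_false, not_not]
      intro p hp hps
      apply ht
      rw [mem_cone] at hp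
      change (res s.length p).map Prod.snd = s at hps
      change (res s.length (fin e t)).map Prod.snd = s
      have h1 : res s.length p = t.take s.length := by
        rw [← take_res (m := (t ++ [j]).length) (by simp; omega), hp]
        rw [List.take_append_of_le_length (by omega)]
      rw [res_fin, ← h1]
      exact hps

/-- One's cover at the node `s` -/
def fam (e : Om → Om → ℕ) (s : List Om) : Set (Set (Pt e)) :=
  range (fun a : Om => (abv e (s ++ [a]))ᶜ)

lemma list_eq_of_map {α β : Type*} {l l' : List (α × β)} (h1 : l.map Prod.fst = l'.map Prod.fst)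
    (h2 : l.map Prod.snd = l'.map Prod.snd) : l = l' := by
  have h3 := List.zip_unzip l
  have h4 := List.zip_unzip l'
  rw [List.unzip_eq_map] at h3 h4
  rw [← h3, ← h4]
  simp only
  rw [h1, h2]

lemma exists_avoid [Uncountable Om]
    (he : ∀ d k, {a | a < d ∧ e d a ≤ k}.Finite)
    (s : List Om) {K : Set (Pt e)} (hK : IsCompact K) :
    ∃ a : Om, K ⊆ (abv e (s ++ [a]))ᶜ := by
  by_contra hcon
  have hcon' : ∀ a : Om, ∃ z ∈ K, z ∈ abv e (s ++ [a]) := by
    intro a
    by_contra h
    push Not at h
    exact hcon ⟨a, fun z hz => h z hz⟩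
  choose z hzK hz using hcon'
  have hdec : ∀ a : Om, ∃ (u : List (ℕ × Om)) (n : ℕ),
      res (s ++ [a]).length (z a) = u ++ [(n, a)] ∧ u.map Prod.snd = s := by
    intro a
    have h1 : (res (s ++ [a]).length (z a)).map Prod.snd = s ++ [a] := hz a
    rcases List.eq_nil_or_concat (res (s ++ [a]).length (z a)) with h2 | ⟨u, j, h2⟩
    · rw [h2] at h1
      simp at h1
    · rw [List.concat_eq_append] at h2
      rw [h2, List.map_append] at h1
      simp only [List.map_cons, List.map_nil] at h1
      have h3 := List.append_inj' h1 (by simp)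
      refine ⟨u, j.1, ?_, h3.1⟩
      rw [h2]
      have h4 : j.2 = a := by simpa using h3.2
      rw [← h4]
  choose u n hun hus using hdec
  -- pigeonhole
  obtain ⟨c, hc⟩ : ∃ c : List ℕ × ℕ, ({a : Om | ((u a).map Prod.fst, n a) = c}).Infinite := by
    by_contra hcon2
    push Not at hcon2
    have : (univ : Set Om) = ⋃ c : List ℕ × ℕ, {a : Om | ((u a).map Prod.fst, n a) = c} := by
      ext a
      simp
    have h2 : (univ : Set Om).Countable := by
      rw [this]
      refine countable_iUnion fun c => ?_
      exact (not_infinite.mp (by simpa using hcon2 c)).countable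
    exact not_countable_univ h2
  obtain ⟨a0, ha0⟩ := hc.nonempty
  set t := u a0 with ht
  have hut : ∀ a, ((u a).map Prod.fst, n a) = c → u a = t ∧ n a = c.2 := by
    intro a ha
    refine ⟨?_, by rw [← ha]⟩
    apply list_eq_of_map
    · have h1 := congrArg Prod.fst ha
      have h2 := congrArg Prod.fst ha0
      simp only at h1 h2
      rw [h1, h2]
    · rw [hus, hus]
  let f := hc.natEmbedding
  have hfc : ∀ i, ((u (f i : Om)).map Prod.fst, n (f i : Om)) = c := fun i => (f i).2
  set D : Set (ℕ × Om) := range (fun i => (c.2, (f i : Om))) with hD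
  have hDs : Small e D := by
    refine ⟨countable_range _, fun g => ?_⟩
    refine ((he g c.2).image (fun a => (c.2, a))).subset ?_
    rintro j ⟨⟨i, rfl⟩, hj1, hj2⟩
    exact ⟨(f i : Om), ⟨hj1, le_of_eq hj2.symm⟩, rfl⟩
  have hcomp : IsCompact (K ∩ fan e t D) := hK.inter_right (isClosed_fan hDs)
  obtain ⟨T, hT⟩ := hcomp.elim_finite_subcover (fun i : ℕ => cone e (t ++ [(c.2, (f i : Om))]))
    (fun i => isOpen_cone _) (by
      rintro p ⟨-, j, ⟨i, rfl⟩, hp⟩
      exact mem_iUnion.mpr ⟨i, hp⟩)
  have hzc : ∀ i, z (f i : Om) ∈ cone e (t ++ [(c.2, (f i : Om))]) := by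
    intro i
    have h1 := hut _ (hfc i)
    have h2 := hun (f i : Om)
    rw [h1.1, h1.2] at h2
    rw [mem_cone, ← h2]
    congr 1
    rw [h2, List.length_append, List.length_append, ← hus (f i : Om), h1.1, List.length_map]
    rfl
  have hsub : ∀ i, i ∈ T := by
    intro i
    have h1 : z (f i : Om) ∈ K ∩ fan e t D := ⟨hzK _, _, ⟨i, rfl⟩, hzc i⟩
    have h2 := hT h1
    rw [mem_iUnion₂] at h2
    obtain ⟨i', hi', h3⟩ := h2
    have h4 := cone_disjoint (hzc i) h3
    have h5 : (f i : Om) = f i' := congrArg Prod.snd h4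
    have h6 : i = i' := f.injective (Subtype.ext h5)
    rw [h6]
    exact hi'
  exact infinite_univ (T.finite_toSet.subset fun i _ => hsub i)

lemma abv_nonempty (s : List Om) : (abv e s).Nonempty := by
  refine ⟨fin e (s.map fun a => (0, a)), ?_⟩
  change (res s.length (fin e (s.map fun a => (0, a)))).map Prod.snd = s
  rw [res_fin]
  have : (s.map fun a => ((0 : ℕ), a)).take s.length = s.map fun a => ((0 : ℕ), a) := by
    conv_lhs => rw [show s.length = (s.map fun a => ((0 : ℕ), a)).length by simp]
    rw [List.take_length]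
  rw [this, List.map_map]
  simp [Function.comp_def]

lemma fam_kCover [Uncountable Om]
    (he : ∀ d k, {a | a < d ∧ e d a ≤ k}.Finite) (s : List Om) :
    IsKCover (Pt e) (fam e s) := by
  refine ⟨⟨?_, ?_, ?_⟩, ?_⟩
  · rintro V ⟨a, rfl⟩
    exact isOpen_abv_compl _
  · rw [eq_univ_iff_forall]
    intro p
    obtain ⟨a, ha⟩ := exists_avoid he s (isCompact_singleton (x := p))
    exact ⟨_, ⟨a, rfl⟩, ha rfl⟩
  · rintro ⟨a, ha⟩
    obtain ⟨p, hp⟩ := abv_nonempty (e := e) (s ++ [a])
    have : p ∈ (abv e (s ++ [a]))ᶜ := by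
      simp only at ha
      rw [ha]
      trivial
    exact this hp
  · intro K _ hK
    obtain ⟨a, ha⟩ := exists_avoid he s hK
    exact ⟨_, ⟨a, rfl⟩, ha⟩

/-- a choice of the ordinal played -/
noncomputable def pick [Nonempty Om] (e : Om → Om → ℕ) (s : List Om) (V : Set (Pt e)) : Om :=
  Classical.epsilon (fun a => (abv e (s ++ [a]))ᶜ = V)

/-- decoding the history -/
noncomputable def decode [Nonempty Om] (e : Om → Om → ℕ) (h : List (Set (Pt e))) : List Om :=
  h.foldl (fun s V => s ++ [pick e s V]) []

lemma decode_append [Nonempty Om] (h : List (Set (Pt e))) (V : Set (Pt e)) :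
    decode e (h ++ [V]) = decode e h ++ [pick e (decode e h) V] := by
  simp [decode, List.foldl_append]

lemma exists_bound [Uncountable Om] (hc : ∀ a : Om, (Iio a).Countable) {S : Set Om}
    (hS : S.Countable) : ∃ b, ∀ a ∈ S, a < b := by
  by_contra hcon
  push Not at hcon
  have : (univ : Set Om) = ⋃ a ∈ S, (Iio a ∪ {a}) := by
    ext b
    simp only [mem_univ, mem_iUnion, true_iff]
    obtain ⟨a, ha, hab⟩ := hcon b
    exact ⟨a, ha, by
      rcases hab.lt_or_eq with h | h
      · exact Or.inl h
      · exact Or.inr h⟩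
  have h2 : (univ : Set Om).Countable := by
    rw [this]
    exact hS.biUnion fun a _ => (hc a).union (countable_singleton a)
  exact not_countable_univ h2

theorem oneWins [Uncountable Om] (hc : ∀ a : Om, (Iio a).Countable)
    (he : ∀ d k, {a | a < d ∧ e d a ≤ k}.Finite) : OneWins (Pt e) := by
  have : Nonempty Om := inferInstance
  refine ⟨fun h => fam e (decode e h), fun h => fam_kCover he _, ?_⟩
  intro U hU hcov
  set s : ℕ → List Om := fun n => decode e ((List.range n).map U) with hs
  set b : ℕ → Om := fun n => pick e (s n) (U n) with hb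
  have hs1 : ∀ n, s (n + 1) = s n ++ [b n] := by
    intro n
    simp only [hs, hb]
    rw [List.range_succ, List.map_append, List.map_singleton, decode_append]
  have hs0 : s 0 = [] := rfl
  have hsn : ∀ n, s n = (List.range n).map b := by
    intro n
    induction n with
    | zero => rfl
    | succ n ih => rw [hs1, ih, List.range_succ, List.map_append, List.map_singleton]
  have hUn : ∀ n, (abv e (s (n + 1)))ᶜ = U n := by
    intro n
    rw [hs1]
    obtain ⟨a, ha⟩ : U n ∈ fam e (s n) := hU n
    exact Classical.epsilon_spec (p := fun a => (abv e (s n ++ [a]))ᶜ = U n) ⟨a, ha⟩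
  obtain ⟨g, hg⟩ := exists_bound hc (countable_range b)
  let y : ℕ → ℕ × Om := fun n => (e g (b n), b n)
  have hy : y ∈ Good e := by
    refine ⟨g, ?_⟩
    convert finite_empty
    rw [sdiff_eq_empty]
    rintro j ⟨n, rfl⟩
    exact ⟨hg _ (mem_range_self n), rfl⟩
  obtain ⟨V, ⟨n, rfl⟩, hV⟩ := hcov.2 {inf e ⟨y, hy⟩} (finite_singleton _)
  have h1 : inf e ⟨y, hy⟩ ∈ U n := hV rfl
  rw [← hUn n] at h1
  apply h1
  change (res (s (n + 1)).length (inf e ⟨y, hy⟩)).map Prod.snd = s (n + 1)
  rw [hsn, res_inf, List.map_map]
  simp [y, Function.comp_def]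

end Pool.Agent.Work.MP_0d8d6b_gt
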