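import Pool.Agent.Work.MP_0d8d6b_gt.Defs
import Pool.Agent.Work.MP_0d8d6b_gt.Space
import Pool.Agent.Work.MP_0d8d6b_gt.Game

/-!
The selection principle `S₁(𝒦, Ω)` for `Pt e`: One has no winning predetermined strategy.
-/

namespace Pool.Agent.Work.MP_0d8d6b_gt

open Set

variable {Om : Type} [LinearOrder Om] {e : Om → Om → ℕ}

/-- points all of whose entries lie in `M` -/
def within (e : Om → Om → ℕ) (M : Set (ℕ × Om)) : Set (Pt e) :=
  {p | ∀ l, ∀ j ∈ res l p, j ∈ M}

lemma fin_mem_within {M : Set (ℕ × Om)} {t : List (ℕ × Om)} :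
    fin e t ∈ within e M ↔ ∀ j ∈ t, j ∈ M := by
  constructor
  · intro h j hj
    refine h t.length j ?_
    rw [res_fin, List.take_length]
    exact hj
  · intro h l j hj
    rw [res_fin] at hj
    exact h j (List.mem_of_mem_take hj)

lemma inf_mem_within {M : Set (ℕ × Om)} {x : Good e} :
    inf e x ∈ within e M ↔ range x.1 ⊆ M := by
  constructor
  · rintro h j ⟨n, rfl⟩
    refine h (n + 1) _ ?_
    rw [res_inf]
    exact List.mem_map.mpr ⟨n, by simp, rfl⟩
  · intro h l j hj
    rw [res_inf, List.mem_map] at hj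
    obtain ⟨n, -, rfl⟩ := hj
    exact h (mem_range_self n)

lemma within_mono {M M' : Set (ℕ × Om)} (h : M ⊆ M') : within e M ⊆ within e M' :=
  fun _ hp l j hj => h (hp l j hj)

/-- compactness of the sets of points with entries in `L_β ∪ E` -/
lemma isCompact_within (β : Om) {E : Set (ℕ × Om)} (hE : E.Finite) :
    IsCompact (within e (Lset e β ∪ E)) := by
  classical
  have : Nonempty Om := ⟨β⟩
  set M := Lset e β ∪ E with hM
  rw [isCompact_iff_finite_subcover]
  intro ι O hO hcov
  by_contra hcon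
  -- bad nodes
  let Bad : List (ℕ × Om) → Prop := fun t =>
    (∀ j ∈ t, j ∈ M) ∧ ¬ ∃ T : Finset ι, cone e t ∩ within e M ⊆ ⋃ i ∈ T, O i
  have hbad0 : Bad [] := by
    refine ⟨by simp, ?_⟩
    rw [cone_nil, univ_inter]
    exact hcon
  have hstep : ∀ t, Bad t → ∃ j, Bad (t ++ [j]) := by
    rintro t ⟨htM, ht⟩
    by_contra hno
    push Not at hno
    have htw : fin e t ∈ within e M := fin_mem_within.mpr htM
    obtain ⟨i0, hi0⟩ := mem_iUnion.mp (hcov htw)
    have hsm := (isOpen_iff'.mp (hO i0)).2 t hi0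
    have hfin : ({j | ¬ cone e (t ++ [j]) ⊆ O i0} ∩ M).Finite := by
      rw [hM, inter_union_distrib_left]
      exact (hsm.2 β).union (hE.subset inter_subset_right)
    have hgood : ∀ j ∈ M, ∃ T : Finset ι,
        cone e (t ++ [j]) ∩ within e M ⊆ ⋃ i ∈ T, O i := by
      intro j hj
      by_contra h
      refine hno j ⟨?_, h⟩
      intro j' hj'
      rw [List.mem_append, List.mem_singleton] at hj'
      rcases hj' with hj' | rfl
      · exact htM _ hj'
      · exact hj
    choose! T hT using hgood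
    apply ht
    refine ⟨insert i0 (hfin.toFinset.biUnion T), ?_⟩
    rintro p ⟨hp, hpM⟩
    rcases cone_split hp with rfl | ⟨j, hj⟩
    · exact mem_iUnion₂.mpr ⟨i0, Finset.mem_insert_self _ _, hi0⟩
    · by_cases hjO : cone e (t ++ [j]) ⊆ O i0
      · exact mem_iUnion₂.mpr ⟨i0, Finset.mem_insert_self _ _, hjO hj⟩
      · have hjM : j ∈ M := by
          refine hpM (t ++ [j]).length j ?_
          rw [mem_cone.mp hj]
          simp
        have h1 := hT j hjM ⟨hj, hpM⟩
        rw [mem_iUnion₂] at h1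
        obtain ⟨i, hi, hpi⟩ := h1
        refine mem_iUnion₂.mpr ⟨i, ?_, hpi⟩
        rw [Finset.mem_insert, Finset.mem_biUnion]
        right
        exact ⟨j, by rw [Finite.mem_toFinset]; exact ⟨hjO, hjM⟩, hi⟩
  choose! nx hnx using hstep
  let f : ℕ → List (ℕ × Om) := fun n => Nat.rec [] (fun _ t => t ++ [nx t]) n
  have hf0 : f 0 = [] := rfl
  have hf1 : ∀ n, f (n + 1) = f n ++ [nx (f n)] := fun n => rfl
  have hfb : ∀ n, Bad (f n) := by
    intro n
    induction n with
    | zero => exact hbad0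
    | succ n ih => rw [hf1]; exact hnx _ ih
  let x : ℕ → ℕ × Om := fun n => nx (f n)
  have hfx : ∀ n, (List.range n).map x = f n := by
    intro n
    induction n with
    | zero => rfl
    | succ n ih => rw [List.range_succ, List.map_append, ih, hf1]; rfl
  have hxM : range x ⊆ M := by
    rintro j ⟨n, rfl⟩
    refine (hfb (n + 1)).1 _ ?_
    rw [hf1]
    simp [x]
  have hxG : x ∈ Good e := by
    refine ⟨β, hE.subset ?_⟩
    rintro j ⟨hj, hj'⟩
    rcases hxM hj with h | h
    · exact absurd h hj'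
    · exact h
  have hxw : inf e ⟨x, hxG⟩ ∈ within e M := inf_mem_within.mpr hxM
  obtain ⟨i, hi⟩ := mem_iUnion.mp (hcov hxw)
  obtain ⟨l, hl⟩ := (isOpen_iff'.mp (hO i)).1 _ hi
  rw [res_inf] at hl
  simp only [hfx] at hl
  apply (hfb l).2
  refine ⟨{i}, ?_⟩
  rintro p ⟨hp, -⟩
  simpa using hl hp

/-- the part of the index set below `β` -/
def below (β : Om) : Set (ℕ × Om) := {j | j.2 < β}

lemma countable_below (hc : ∀ a : Om, (Iio a).Countable) (β : Om) : (below β).Countable := by
  have h := (countable_univ (α := ℕ)).prod (hc β)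
  refine h.mono ?_
  rintro ⟨n, a⟩ ha
  exact ⟨trivial, ha⟩

lemma countable_lists {S : Set (ℕ × Om)} (hS : S.Countable) :
    {t : List (ℕ × Om) | ∀ j ∈ t, j ∈ S}.Countable := by
  have : Countable S := hS.to_subtype
  refine (countable_range (fun l : List S => l.map Subtype.val)).mono ?_
  intro t ht
  refine ⟨t.attach.map fun j => ⟨j.1, ht j.1 j.2⟩, ?_⟩
  simp only [List.map_map]
  exact List.attach_map_subtype_val t

/-- A point whose entries are all below `β` lies in a compact set `L_β ∪ E`. -/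
lemma exists_finite_of_below
    (hcoh : ∀ g d, g < d → {a | a < g ∧ e g a ≠ e d a}.Finite) {β : Om} {p : Pt e}
    (hp : p ∈ within e (below β)) :
    ∃ E : Set (ℕ × Om), E.Finite ∧ E ⊆ below β ∧ p ∈ within e (Lset e β ∪ E) := by
  rcases pt_cases p with ⟨t, rfl⟩ | ⟨x, rfl⟩
  · rw [fin_mem_within] at hp
    exact ⟨{j | j ∈ t}, t.finite_toSet, hp, fin_mem_within.mpr fun j hj => Or.inr hj⟩
  · rw [inf_mem_within] at hp
    obtain ⟨g, hg⟩ := x.2
    refine ⟨range x.1 \ Lset e β, ?_, sdiff_subset.trans hp, inf_mem_within.mpr ?_⟩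
    · -- finiteness by coherence
      have hdiff : {a | a < g ∧ a < β ∧ e g a ≠ e β a}.Finite := by
        rcases lt_trichotomy g β with h | h | h
        · exact (hcoh g β h).subset fun a ha => ⟨ha.1, ha.2.2⟩
        · convert finite_empty
          ext a
          simp only [mem_ofPred_eq, mem_empty_iff_false, iff_false]
          rintro ⟨-, -, h3⟩
          exact h3 (by rw [h])
        · exact (hcoh β g h).subset fun a ha => ⟨ha.2.1, ha.2.2.symm⟩
      refine (hg.union (hdiff.image fun a => (e g a, a))).subset ?_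
      rintro j ⟨hj, hjβ⟩
      by_cases hjg : j ∈ Lset e g
      · right
        refine ⟨j.2, ⟨hjg.1, hp hj, ?_⟩, ?_⟩
        · intro heq
          apply hjβ
          exact ⟨hp hj, by rw [hjg.2, heq]⟩
        · exact Prod.ext hjg.2.symm rfl
      · exact Or.inl ⟨hj, hjg⟩
    · intro j hj
      by_cases h : j ∈ Lset e β
      · exact Or.inl h
      · exact Or.inr ⟨hj, h⟩

/-- first exit from `below β` -/
lemma exit_cases (p : Pt e) (β : Om) :
    p ∈ within e (below β) ∨
      ∃ (t : List (ℕ × Om)) (j : ℕ × Om), p ∈ cone e (t ++ [j]) ∧ (∀ i ∈ t, i ∈ below β) ∧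
        β ≤ j.2 := by
  classical
  by_cases h : p ∈ within e (below β)
  · exact Or.inl h
  · right
    have h' : ∃ l, ∃ j ∈ res l p, j ∉ below β := by
      by_contra hcon
      push Not at hcon
      exact h hcon
    obtain ⟨j, hj, hjβ⟩ := Nat.find_spec h'
    set l := Nat.find h' with hl
    have hmin : ∀ m < l, ∀ i ∈ res m p, i ∈ below β := by
      intro m hm i hi
      by_contra hcon
      exact Nat.find_min h' hm ⟨i, hi, hcon⟩
    have hlpos : 0 < l := by
      by_contra h0
      have : l = 0 := by omega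
      rw [this] at hj
      rw [← take_res (le_refl 0)] at hj
      simp at hj
    have hlen : (res l p).length = l := by
      by_contra hne
      have hle : (res l p).length ≤ l := by
        rw [← take_res (le_refl l), List.length_take]
        exact min_le_left _ _
      have hlt : (res l p).length < l := lt_of_le_of_ne hle hne
      have h1 : res (res l p).length p = res l p := by
        rw [← take_res hle, List.take_length]
      rw [← h1] at hj
      exact hjβ (hmin _ hlt j hj)
    rcases List.eq_nil_or_concat (res l p) with h2 | ⟨t, i, h2⟩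
    · rw [h2] at hlen
      simp at hlen
      omega
    · rw [List.concat_eq_append] at h2
      have ht : t = res (l - 1) p := by
        rw [← take_res (show l - 1 ≤ l by omega), h2]
        rw [h2] at hlen
        simp at hlen
        have : l - 1 = t.length := by omega
        rw [this, List.take_left]
      have htb : ∀ i ∈ t, i ∈ below β := by
        intro i hi
        rw [ht] at hi
        exact hmin _ (by omega) i hi
      refine ⟨t, i, ?_, htb, ?_⟩
      · rw [mem_cone, ← h2, hlen]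
      · rw [h2, List.mem_append, List.mem_singleton] at hj
        rcases hj with hj | rfl
        · exact absurd (htb _ hj) hjβ
        · exact not_lt.mp hjβ

/-- `p` is bad at `β` (relative to `γ`) with exit length `l`. -/
def BadAt (p : Pt e) (β γ : Om) (l : ℕ) : Prop :=
  ∃ (t : List (ℕ × Om)) (j : ℕ × Om), t.length = l ∧ p ∈ cone e (t ++ [j]) ∧
    (∀ i ∈ t, i ∈ below β) ∧ β ≤ j.2 ∧ j.2 < γ

lemma BadAt.lt {p : Pt e} {β γ β' γ' : Om} {l l' : ℕ} (h : BadAt p β γ l)
    (h' : BadAt p β' γ' l') (hγ : γ ≤ β') : l < l' := by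
  obtain ⟨t, j, rfl, hp, ht, hj, hj'⟩ := h
  obtain ⟨t', j', rfl, hp', ht', hjj, hjj'⟩ := h'
  by_contra hcon
  push Not at hcon
  -- `t' ++ [j'] <+: t ++ [j]`
  have h1 := cone_compare hp' hp (by simpa using hcon)
  have h2 : j' ∈ t ++ [j] := h1.subset (by simp)
  rw [List.mem_append, List.mem_singleton] at h2
  rcases h2 with h2 | rfl
  · have h3 : j'.2 < β := ht _ h2
    exact absurd (lt_of_lt_of_le h3 (hj.trans (hj'.le.trans (hγ.trans hjj)))) (lt_irrefl _)
  · exact absurd (lt_of_lt_of_le hj' (hγ.trans hjj)) (lt_irrefl _)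

theorem exists_omega_selection [Uncountable Om] (hc : ∀ a : Om, (Iio a).Countable)
    (hcoh : ∀ g d, g < d → {a | a < g ∧ e g a ≠ e d a}.Finite)
    (𝒰 : ℕ → Set (Set (Pt e))) (h𝒰 : ∀ n, IsKCover (Pt e) (𝒰 n)) :
    ∃ U : ℕ → Set (Pt e), (∀ n, U n ∈ 𝒰 n) ∧ IsOmegaCover (Pt e) (range U) := by
  classical
  have hsel : ∀ (n : ℕ) (β : Om) (E : Set (ℕ × Om)), E.Finite →
      ∃ V, V ∈ 𝒰 n ∧ within e (Lset e β ∪ E) ⊆ V := by
    intro n β E hE
    obtain ⟨V, hV, hV'⟩ := (h𝒰 n).2 (within e (Lset e β ∪ E))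
      ⟨fin e [], fin_mem_within.mpr (by simp)⟩ (isCompact_within β hE)
    exact ⟨V, hV, hV'⟩
  choose! W hW hWsub using hsel
  -- the bounding function
  have hbd : ∀ β : Om, ∃ γ, β < γ ∧ ∀ (n : ℕ) (E : Set (ℕ × Om)), E.Finite → E ⊆ below β →
      ∀ t : List (ℕ × Om), (∀ i ∈ t, i ∈ below β) → fin e t ∈ W n β E →
      ∀ j, ¬ cone e (t ++ [j]) ⊆ W n β E → j.2 < γ := by
    intro β
    have hcount : (⋃ n : ℕ, ⋃ E ∈ {E : Set (ℕ × Om) | E.Finite ∧ E ⊆ below β},
        ⋃ t ∈ {t : List (ℕ × Om) | ∀ j ∈ t, j ∈ below β},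
          Prod.snd '' {j : ℕ × Om | E.Finite ∧ fin e t ∈ W n β E ∧
            ¬ cone e (t ++ [j]) ⊆ W n β E}).Countable := by
      refine countable_iUnion fun n => ?_
      refine (countable_ofPred_finite_subset (countable_below hc β)).biUnion fun E hE => ?_
      refine (countable_lists (countable_below hc β)).biUnion fun t _ => ?_
      refine Countable.image ?_ _
      by_cases h : fin e t ∈ W n β E
      · have hop : IsOpen (W n β E) := (h𝒰 n).1.1 _ (hW n β E hE.1)
        exact ((isOpen_iff'.mp hop).2 t h).1.mono fun j hj => hj.2.2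
      · convert countable_empty
        ext j
        simp only [mem_ofPred_eq, mem_empty_iff_false, iff_false]
        rintro ⟨-, h1, -⟩
        exact h h1
    obtain ⟨γ, hγ⟩ := exists_bound hc (hcount.union (countable_singleton β))
    refine ⟨γ, hγ β (Or.inr rfl), ?_⟩
    intro n E hE hEb t ht htW j hj
    refine hγ j.2 (Or.inl ?_)
    refine mem_iUnion.mpr ⟨n, mem_iUnion₂.mpr ⟨E, ⟨hE, hEb⟩, mem_iUnion₂.mpr ⟨t, ht, ?_⟩⟩⟩
    exact ⟨j, ⟨hE, htW, hj⟩, rfl⟩
  choose Φ hΦlt hΦ using hbd
  -- the blocks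
  have hΨ : ∀ β : Om, ∃ γ, ∀ i : ℕ, Φ^[i] β < γ := by
    intro β
    obtain ⟨γ, hγ⟩ := exists_bound hc (countable_range fun i : ℕ => Φ^[i] β)
    exact ⟨γ, fun i => hγ _ (mem_range_self i)⟩
  choose Ψ hΨ using hΨ
  obtain ⟨b0⟩ : Nonempty Om := inferInstance
  let b : ℕ → Om := fun k => Ψ^[k] b0
  let B : ℕ → ℕ → Om := fun k i => Φ^[i] (b k)
  have hB1 : ∀ k i, B k (i + 1) = Φ (B k i) := fun k i => Function.iterate_succ_apply' Φ i (b k)
  have hBlt : ∀ k i, B k i < b (k + 1) := by
    intro k i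
    have : b (k + 1) = Ψ (b k) := Function.iterate_succ_apply' Ψ k b0
    rw [this]
    exact hΨ (b k) i
  have hBmono : ∀ k, StrictMono (B k) := by
    intro k
    refine strictMono_nat_of_lt_succ fun i => ?_
    rw [hB1]
    exact hΦlt _
  have hbmono : StrictMono b := by
    refine strictMono_nat_of_lt_succ fun k => ?_
    exact hBlt k 0
  have hcross : ∀ k k' i i', k < k' → Φ (B k i) ≤ B k' i' := by
    intro k k' i i' hk
    rw [← hB1]
    calc B k (i + 1) ≤ b (k + 1) := (hBlt k (i + 1)).le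
      _ ≤ b k' := hbmono.monotone hk
      _ = B k' 0 := rfl
      _ ≤ B k' i' := (hBmono k').monotone (Nat.zero_le _)
  -- enumeration of triples
  set T : Set (ℕ × ℕ × Set (ℕ × Om)) :=
    {q | q.2.2.Finite ∧ q.2.2 ⊆ below (B q.1 q.2.1)} with hT
  have hTc : T.Countable := by
    have : T ⊆ ⋃ k : ℕ, ⋃ i : ℕ, (fun E => (k, i, E)) ''
        {E : Set (ℕ × Om) | E.Finite ∧ E ⊆ below (B k i)} := by
      rintro ⟨k, i, E⟩ hq
      exact mem_iUnion.mpr ⟨k, mem_iUnion.mpr ⟨i, E, hq, rfl⟩⟩
    refine Countable.mono this ?_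
    refine countable_iUnion fun k => countable_iUnion fun i => Countable.image ?_ _
    exact countable_ofPred_finite_subset (countable_below hc _)
  have hTne : T.Nonempty := ⟨(0, 0, ∅), finite_empty, empty_subset _⟩
  obtain ⟨f, hf⟩ := hTc.exists_eq_range hTne
  have hfT : ∀ n, f n ∈ T := fun n => hf ▸ mem_range_self n
  let U : ℕ → Set (Pt e) := fun n => W n (B (f n).1 (f n).2.1) (f n).2.2
  have hU : ∀ n, U n ∈ 𝒰 n := fun n => hW n _ _ (hfT n).1
  have key : ∀ F : Set (Pt e), F.Finite → ∃ V ∈ range U, F ⊆ V := by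
    intro F hF
    -- bad indices
    let Bd : Pt e → ℕ → Set ℕ := fun p k => {i | ∃ l, BadAt p (B k i) (Φ (B k i)) l}
    have hsub : ∀ p : Pt e, {k | (Bd p k).Infinite}.Subsingleton := by
      have aux : ∀ p : Pt e, ∀ k k', (Bd p k).Infinite → (Bd p k').Infinite → ¬ k < k' := by
        intro p k k' hk hk' hlt
        obtain ⟨i', l', hl'⟩ := hk'.nonempty
        have hex : ∀ i, i ∈ Bd p k → ∃ l, BadAt p (B k i) (Φ (B k i)) l := fun i hi => hi
        choose! L hL using hex
        have hinj : InjOn L (Bd p k) := by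
          intro i hi j hj hij
          by_contra hne
          rcases lt_or_gt_of_ne hne with h | h
          · have := (hL i hi).lt (hL j hj) (by
              rw [← hB1]; exact (hBmono k).monotone h)
            omega
          · have := (hL j hj).lt (hL i hi) (by
              rw [← hB1]; exact (hBmono k).monotone h)
            omega
        have hmaps : MapsTo L (Bd p k) (Iio l') := by
          intro i hi
          exact (hL i hi).lt hl' (hcross _ _ _ _ hlt)
        exact (infinite_of_injOn_mapsTo hinj hmaps hk) (finite_Iio l')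
      intro p k hk k' hk'
      by_contra hne
      rcases lt_or_gt_of_ne hne with h | h
      · exact aux p k k' hk hk' h
      · exact aux p k' k hk' hk h
    obtain ⟨k, hk⟩ : ∃ k, k ∉ ⋃ p ∈ F, {k | (Bd p k).Infinite} :=
      (hF.biUnion fun p _ => (hsub p).finite).exists_notMem
    have hk' : ∀ p ∈ F, (Bd p k).Finite := by
      intro p hp
      by_contra h
      exact hk (mem_iUnion₂.mpr ⟨p, hp, h⟩)
    obtain ⟨i, hi⟩ : ∃ i, i ∉ ⋃ p ∈ F, Bd p k :=
      (hF.biUnion fun p hp => hk' p hp).exists_notMem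
    have hi' : ∀ p ∈ F, ∀ l, ¬ BadAt p (B k i) (Φ (B k i)) l := by
      intro p hp l hl
      exact hi (mem_iUnion₂.mpr ⟨p, hp, l, hl⟩)
    set β := B k i with hβ
    have hpt : ∀ p ∈ F, ∃ E0 : Set (ℕ × Om), E0.Finite ∧ E0 ⊆ below β ∧
        ∀ (n : ℕ) (E : Set (ℕ × Om)), E0 ⊆ E → E.Finite → E ⊆ below β → p ∈ W n β E := by
      intro p hp
      rcases exit_cases p β with h | ⟨t, j, hpc, ht, hj⟩
      · obtain ⟨E0, h1, h2, h3⟩ := exists_finite_of_below hcoh h
        refine ⟨E0, h1, h2, fun n E hE0 hE _ => ?_⟩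
        exact hWsub n β E hE (within_mono (union_subset_union_right _ hE0) h3)
      · refine ⟨{i | i ∈ t}, t.finite_toSet, ht, fun n E hE0 hE hEb => ?_⟩
        have htw : fin e t ∈ W n β E :=
          hWsub n β E hE (fin_mem_within.mpr fun i hi => Or.inr (hE0 hi))
        by_cases hcn : cone e (t ++ [j]) ⊆ W n β E
        · exact hcn hpc
        · exfalso
          exact hi' p hp t.length ⟨t, j, rfl, hpc, ht, hj, hΦ β n E hE hEb t ht htw j hcn⟩
    choose! E0 hE0f hE0b hE0 using hpt
    set E := ⋃ p ∈ F, E0 p with hE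
    have hEf : E.Finite := hF.biUnion hE0f
    have hEb : E ⊆ below β := iUnion₂_subset hE0b
    obtain ⟨n, hn⟩ : (k, i, E) ∈ range f := hf ▸ (⟨hEf, hEb⟩ : (k, i, E) ∈ T)
    refine ⟨U n, mem_range_self n, ?_⟩
    intro p hp
    change p ∈ W n (B (f n).1 (f n).2.1) (f n).2.2
    rw [hn]
    exact hE0 p hp n E (subset_biUnion_of_mem hp) hEf hEb
  refine ⟨U, hU, ⟨?_, ?_, ?_⟩, key⟩
  · rintro V ⟨n, rfl⟩
    exact (h𝒰 n).1.1 _ (hU n)
  · rw [eq_univ_iff_forall]
    intro p
    obtain ⟨V, hV, hpV⟩ := key {p} (finite_singleton p)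
    exact ⟨V, hV, hpV rfl⟩
  · rintro ⟨n, hn⟩
    exact (h𝒰 n).1.2.2 (hn ▸ hU n)

theorem not_oneWinsPredetermined [Uncountable Om] (hc : ∀ a : Om, (Iio a).Countable)
    (hcoh : ∀ g d, g < d → {a | a < g ∧ e g a ≠ e d a}.Finite) :
    ¬ OneWinsPredetermined (Pt e) := by
  rintro ⟨𝒰, h𝒰, hwin⟩
  obtain ⟨U, hU, hcov⟩ := exists_omega_selection hc hcoh 𝒰 h𝒰
  exact hwin U hU hcov

/-- `Pt e` is Lindelöf. -/
theorem lindelof [Uncountable Om] (hc : ∀ a : Om, (Iio a).Countable)
    (hcoh : ∀ g d, g < d → {a | a < g ∧ e g a ≠ e d a}.Finite) :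
    LindelofSpace (Pt e) := by
  classical
  constructor
  refine isLindelof_of_countable_subcover fun {ι} O hO hcov => ?_
  by_cases hfin : ∃ t : Finset ι, (univ : Set (Pt e)) ⊆ ⋃ i ∈ t, O i
  · obtain ⟨t, ht⟩ := hfin
    exact ⟨t, t.countable_toSet, ht⟩
  · -- finite unions form a `k`-cover
    let V : Set (Set (Pt e)) := {S | ∃ t : Finset ι, S = ⋃ i ∈ t, O i}
    have hV : IsKCover (Pt e) V := by
      have hk : ∀ K : Set (Pt e), K.Nonempty → IsCompact K → ∃ S ∈ V, K ⊆ S := by
        intro K _ hK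
        obtain ⟨t, ht⟩ := hK.elim_finite_subcover O hO ((subset_univ _).trans hcov)
        exact ⟨_, ⟨t, rfl⟩, ht⟩
      refine ⟨⟨?_, ?_, ?_⟩, hk⟩
      · rintro S ⟨t, rfl⟩
        exact isOpen_biUnion fun i _ => hO i
      · rw [eq_univ_iff_forall]
        intro p
        obtain ⟨S, hS, hpS⟩ := hk {p} (singleton_nonempty p) isCompact_singleton
        exact ⟨S, hS, hpS rfl⟩
      · rintro ⟨t, ht⟩
        exact hfin ⟨t, ht.le⟩
    obtain ⟨U, hU, hUcov⟩ := exists_omega_selection hc hcoh (fun _ => V) (fun _ => hV)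
    choose t ht using hU
    refine ⟨⋃ n, (t n : Set ι), countable_iUnion fun n => (t n).countable_toSet, ?_⟩
    intro p _
    obtain ⟨S, ⟨n, rfl⟩, hpS⟩ := hUcov.2 {p} (finite_singleton p)
    have h1 : p ∈ U n := hpS rfl
    rw [ht n, mem_iUnion₂] at h1
    obtain ⟨i, hi, hpi⟩ := h1
    exact mem_iUnion₂.mpr ⟨i, mem_iUnion.mpr ⟨n, hi⟩, hpi⟩

end Pool.Agent.Work.MP_0d8d6b_gt
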