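import Pool.Agent.Work.MP_0d8d6b_gt.Coherent
import Pool.Agent.Work.MP_0d8d6b_gt.Select

/-!
The counterexample.
-/

namespace Pool.Agent.Work.MP_0d8d6b_gt

open Set Cardinal

instance {Om : Type} [LinearOrder Om] {e : Om → Om → ℕ} : RegularSpace (Pt e) := by
  refine RegularSpace.of_exists_mem_nhds_isClosed_subset ?_
  intro p s hs
  obtain ⟨u, hu, hpu, hus⟩ := (isBasis_clopen (e := e)).mem_nhds_iff.mp hs
  exact ⟨u, hu.isOpen.mem_nhds hpu, hu.isClosed, hus⟩

theorem main : ∃ (X : Type) (_ : TopologicalSpace X),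
    T4Space X ∧ LindelofSpace X ∧
      TopologicalSpace.IsTopologicalBasis {s : Set X | IsClopen s} ∧
      OneWins X ∧ ¬ OneWinsPredetermined X := by
  let Om : Type := (ℵ₁ : Cardinal.{0}).ord.ToType
  have hc : ∀ a : Om, (Iio a).Countable := by
    intro a
    rw [← le_aleph0_iff_set_countable, ← lt_aleph_one_iff]
    exact mk_Iio_toType_ord_lt a
  have hun : Uncountable Om := by
    rw [← aleph0_lt_mk_iff, mk_ord_toType]
    exact aleph0_lt_aleph_one
  have hfin : ∀ d k, {a | a < d ∧ coh hc d a ≤ k}.Finite := fun d => (coh_main hc d).1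
  have hcoh : ∀ g d, g < d → {a | a < g ∧ coh hc g a ≠ coh hc d a}.Finite :=
    fun g d => (coh_main hc d).2 g
  have hL : LindelofSpace (Pt (coh hc)) := lindelof hc hcoh
  have hN : NormalSpace (Pt (coh hc)) := inferInstance
  exact ⟨Pt (coh hc), inferInstance, inferInstance, hL, isBasis_clopen, oneWins hc hfin,
    not_oneWinsPredetermined hc hcoh⟩

end Pool.Agent.Work.MP_0d8d6b_gt
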