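import Mathlib

/-!
A coherent family of finite-to-one functions on countable initial segments of a well-order.
-/

namespace Pool.Agent.Work.MP_0d8d6b_gt

open Set

/-- enumeration of the initial segment below `d` (junk value if empty) -/
noncomputable def enumBelow {Om : Type*} [LinearOrder Om]
    (hc : ∀ a : Om, (Iio a).Countable) (d : Om) : ℕ → Om :=
  open Classical in
  if h : (Iio d).Nonempty then ((hc d).exists_eq_range h).choose else fun _ => d

lemma enumBelow_range {Om : Type*} [LinearOrder Om]
    (hc : ∀ a : Om, (Iio a).Countable) {d : Om} (h : (Iio d).Nonempty) :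
    Iio d = range (enumBelow hc d) := by
  unfold enumBelow
  rw [dif_pos h]
  exact ((hc d).exists_eq_range h).choose_spec

/-- the coherent family, by well-founded recursion -/
noncomputable def coh {Om : Type*} [LinearOrder Om] [WellFoundedLT Om]
    (hc : ∀ a : Om, (Iio a).Countable) : Om → Om → ℕ :=
  (wellFounded_lt (α := Om)).fix (fun d ih a =>
    open Classical in
    if h : ∃ n, a ≤ enumBelow hc d n then
      (if h2 : a < enumBelow hc d (Nat.find h) ∧ enumBelow hc d (Nat.find h) < d then
        max (ih (enumBelow hc d (Nat.find h)) h2.2 a) (Nat.find h)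
      else Nat.find h)
    else 0)

lemma coh_spec {Om : Type*} [LinearOrder Om] [WellFoundedLT Om]
    (hc : ∀ a : Om, (Iio a).Countable) {d a : Om} (ha : a < d) :
    ∃ n, (∀ m < n, enumBelow hc d m < a) ∧ enumBelow hc d n < d ∧
      ((a = enumBelow hc d n ∧ coh hc d a = n) ∨
        (a < enumBelow hc d n ∧ coh hc d a = max (coh hc (enumBelow hc d n) a) n)) := by
  classical
  have hne : (Iio d).Nonempty := ⟨a, ha⟩
  have hr := enumBelow_range hc hne
  have h : ∃ n, a ≤ enumBelow hc d n := by
    have : a ∈ range (enumBelow hc d) := hr ▸ ha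
    obtain ⟨n, hn⟩ := this
    exact ⟨n, hn.ge⟩
  have hlt : ∀ n, enumBelow hc d n < d := by
    intro n
    have : enumBelow hc d n ∈ Iio d := hr ▸ mem_range_self n
    exact this
  refine ⟨Nat.find h, ?_, hlt _, ?_⟩
  · intro m hm
    exact lt_of_not_ge (Nat.find_min h hm)
  · have hle := Nat.find_spec h
    have key : coh hc d a = (if h2 : a < enumBelow hc d (Nat.find h) ∧
        enumBelow hc d (Nat.find h) < d then
        max (coh hc (enumBelow hc d (Nat.find h)) a) (Nat.find h)
      else Nat.find h) := by
      conv_lhs => unfold coh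
      rw [WellFounded.fix_eq]
      rw [dif_pos h]
      rfl
    rcases hle.lt_or_eq with hl | he
    · right
      refine ⟨hl, ?_⟩
      rw [key, dif_pos ⟨hl, hlt _⟩]
    · left
      refine ⟨he, ?_⟩
      rw [key, dif_neg]
      rintro ⟨h1, -⟩
      exact absurd he h1.ne

theorem coh_main {Om : Type*} [LinearOrder Om] [WellFoundedLT Om]
    (hc : ∀ a : Om, (Iio a).Countable) (d : Om) :
    (∀ k, {a | a < d ∧ coh hc d a ≤ k}.Finite) ∧
      (∀ g < d, {a | a < g ∧ coh hc g a ≠ coh hc d a}.Finite) := by
  induction d using WellFoundedLT.induction with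
  | ind d ih =>
    constructor
    · intro k
      have hfin : (⋃ n ∈ {n : ℕ | n ≤ k ∧ enumBelow hc d n < d},
          ({enumBelow hc d n} ∪ {a | a < enumBelow hc d n ∧
            coh hc (enumBelow hc d n) a ≤ k})).Finite := by
        refine Set.Finite.biUnion ((Set.finite_Iic k).subset fun n hn => hn.1) ?_
        intro n hn
        exact (Set.finite_singleton _).union ((ih _ hn.2).1 k)
      refine hfin.subset ?_
      rintro a ⟨had, hak⟩
      obtain ⟨n, -, h2, h3⟩ := coh_spec hc had
      rcases h3 with ⟨h3, h4⟩ | ⟨h3, h4⟩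
      · rw [mem_iUnion₂]
        refine ⟨n, ⟨by omega, h2⟩, Or.inl h3⟩
      · rw [mem_iUnion₂]
        have h5 : n ≤ k := by
          have := le_max_right (coh hc (enumBelow hc d n) a) n
          omega
        have h6 : coh hc (enumBelow hc d n) a ≤ k := by
          have := le_max_left (coh hc (enumBelow hc d n) a) n
          omega
        exact ⟨n, ⟨h5, h2⟩, Or.inr ⟨h3, h6⟩⟩
    · intro g hg
      have hne : (Iio d).Nonempty := ⟨g, hg⟩
      have hr := enumBelow_range hc hne
      obtain ⟨N, hN⟩ : g ∈ range (enumBelow hc d) := hr ▸ hg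
      have hfin : (⋃ n ∈ {n : ℕ | n ≤ N ∧ enumBelow hc d n < d},
          ({enumBelow hc d n} ∪ {a | a < enumBelow hc d n ∧
            coh hc (enumBelow hc d n) a ≤ n} ∪
            {a | a < g ∧ a < enumBelow hc d n ∧ coh hc g a ≠ coh hc (enumBelow hc d n) a})).Finite := by
        refine Set.Finite.biUnion ((Set.finite_Iic N).subset fun n hn => hn.1) ?_
        intro n hn
        refine ((Set.finite_singleton _).union ((ih _ hn.2).1 n)).union ?_
        rcases lt_trichotomy g (enumBelow hc d n) with h | h | h
        · refine ((ih _ hn.2).2 g h).subset ?_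
          rintro a ⟨h1, h2, h3⟩
          exact ⟨h1, h3⟩
        · convert Set.finite_empty
          ext a
          simp only [mem_ofPred_eq, mem_empty_iff_false, iff_false]
          rintro ⟨h1, h2, h3⟩
          exact h3 (by rw [h])
        · refine ((ih _ hg).2 _ h).subset ?_
          rintro a ⟨h1, h2, h3⟩
          exact ⟨h2, h3.symm⟩
      refine hfin.subset ?_
      rintro a ⟨hag, hne'⟩
      obtain ⟨n, h1, h2, h3⟩ := coh_spec hc (hag.trans hg)
      have hnN : n ≤ N := by
        by_contra hcon
        push Not at hcon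
        have := h1 N hcon
        rw [hN] at this
        exact absurd hag this.le.not_gt
      rw [mem_iUnion₂]
      refine ⟨n, ⟨hnN, h2⟩, ?_⟩
      rcases h3 with ⟨h3, h4⟩ | ⟨h3, h4⟩
      · exact Or.inl (Or.inl h3)
      · by_cases h5 : coh hc (enumBelow hc d n) a ≤ n
        · exact Or.inl (Or.inr ⟨h3, h5⟩)
        · right
          refine ⟨hag, h3, ?_⟩
          intro h6
          apply hne'
          rw [h4, h6, max_eq_left (by omega)]

end Pool.Agent.Work.MP_0d8d6b_gt
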