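import Mathlib

/-!
Definitions for MP_0d8d6b_gt: nontrivial open covers, `ω`-covers, `k`-covers, and the single
selection game `G₁(𝒦_X, Ω_X)`, exactly as in the problem file.
-/

namespace Pool.Agent.Work.MP_0d8d6b_gt

/-- A nontrivial open cover of `X`: a family of open sets covering `X` with `X` not a member. -/
def IsCover (X : Type*) [TopologicalSpace X] (U : Set (Set X)) : Prop :=
  (∀ V ∈ U, IsOpen V) ∧ ⋃₀ U = Set.univ ∧ Set.univ ∉ U

/-- An `ω`-cover: a nontrivial open cover such that each finite `F ⊆ X` lies inside some member. -/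
def IsOmegaCover (X : Type*) [TopologicalSpace X] (U : Set (Set X)) : Prop :=
  IsCover X U ∧ ∀ F : Set X, F.Finite → ∃ V ∈ U, F ⊆ V

/-- A `k`-cover: a nontrivial open cover such that each nonempty compact `K ⊆ X` lies inside some
member. -/
def IsKCover (X : Type*) [TopologicalSpace X] (U : Set (Set X)) : Prop :=
  IsCover X U ∧ ∀ K : Set X, K.Nonempty → IsCompact K → ∃ V ∈ U, K ⊆ V

/-- A strategy for One in `G₁(𝒦_X, Ω_X)`: it assigns a `k`-cover to each finite sequence of Two's
earlier moves. -/
def IsStrategy (X : Type*) [TopologicalSpace X] (σ : List (Set X) → Set (Set X)) : Prop :=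
  ∀ h : List (Set X), IsKCover X (σ h)

/-- `U 0, U 1, …` are Two's answers in a play in which One follows `σ`: in round `n` One plays
`σ [U 0, …, U (n-1)]` and Two picks the member `U n` of it. -/
def IsPlay {X : Type*} (σ : List (Set X) → Set (Set X)) (U : ℕ → Set X) : Prop :=
  ∀ n : ℕ, U n ∈ σ ((List.range n).map U)

/-- One has a winning strategy in `G₁(𝒦_X, Ω_X)`: in every play following it, Two's answers do
not form an `ω`-cover. -/
def OneWins (X : Type*) [TopologicalSpace X] : Prop :=
  ∃ σ : List (Set X) → Set (Set X), IsStrategy X σ ∧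
    ∀ U : ℕ → Set X, IsPlay σ U → ¬ IsOmegaCover X (Set.range U)

/-- One has a winning predetermined strategy in `G₁(𝒦_X, Ω_X)`: a sequence of `k`-covers such that
no choice of one member from each is an `ω`-cover. -/
def OneWinsPredetermined (X : Type*) [TopologicalSpace X] : Prop :=
  ∃ 𝒰 : ℕ → Set (Set X), (∀ n, IsKCover X (𝒰 n)) ∧
    ∀ U : ℕ → Set X, (∀ n, U n ∈ 𝒰 n) → ¬ IsOmegaCover X (Set.range U)

end Pool.Agent.Work.MP_0d8d6b_gt
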